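import Pool.Agent.Lib_helper7.PT.Basic

/-! Module L, part 1: integrals over boxes. -/

open MeasureTheory Set Metric Filter Topology
open scoped RealInnerProductSpace NNReal ENNReal Gradient

namespace PTor

/-- the box `(-1,1) × (-R,R)^n` -/
def Box (n : ℕ) (R : ℝ) : Set (E (n + 1)) := {x | |x 0| < 1 ∧ ∀ j : Fin n, |x j.succ| < R}

theorem isOpen_Box (n : ℕ) (R : ℝ) : IsOpen (Box n R) := by
  have e : Box n R = {x | |x 0| < 1} ∩ ⋂ j : Fin n, {x | |x j.succ| < R} := by
    ext x; simp [Box]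
  rw [e]
  refine IsOpen.inter ?_ (isOpen_iInter_of_finite fun j => ?_)
  · exact isOpen_lt (by fun_prop) continuous_const
  · exact isOpen_lt (by fun_prop) continuous_const

theorem convex_Box (n : ℕ) (R : ℝ) : Convex ℝ (Box n R) := by
  intro x hx y hy a b ha hb hab
  have key : ∀ (u v S : ℝ), |u| < S → |v| < S → |a * u + b * v| < S := by
    intro u v S hu hv
    rw [abs_lt] at *
    have hb' : b = 1 - a := by linarith
    subst hb'
    constructor <;> rcases eq_or_lt_of_le ha with h | h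
    · subst h; linarith
    · nlinarith
    · subst h; linarith
    · nlinarith
  refine ⟨?_, fun j => ?_⟩
  · simpa using key _ _ _ hx.1 hy.1
  · simpa using key _ _ _ (hx.2 j) (hy.2 j)

theorem bounded_Box (n : ℕ) (R : ℝ) : Bornology.IsBounded (Box n R) := by
  rw [isBounded_iff_forall_norm_le]
  refine ⟨Real.sqrt (1 + n * R ^ 2), fun x hx => ?_⟩
  rw [EuclideanSpace.norm_eq]
  apply Real.sqrt_le_sqrt
  rw [Fin.sum_univ_succ]
  have h0 : ‖x 0‖ ^ 2 ≤ 1 := by
    rw [Real.norm_eq_abs]
    exact pow_le_one₀ (abs_nonneg _) hx.1.le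
  have h1 : ∀ j : Fin n, ‖x j.succ‖ ^ 2 ≤ R ^ 2 := by
    intro j
    rw [Real.norm_eq_abs]
    exact pow_le_pow_left₀ (abs_nonneg _) (hx.2 j).le 2
  have h2 := Finset.sum_le_sum fun (j : Fin n) (_ : j ∈ Finset.univ) => h1 j
  simp only [Finset.sum_const, Finset.card_univ, Fintype.card_fin, nsmul_eq_mul] at h2
  linarith

theorem nonempty_Box (n : ℕ) {R : ℝ} (hR : 0 < R) : (Box n R).Nonempty :=
  ⟨0, by simp [Box, hR]⟩

theorem Box_mem_K (n : ℕ) {R : ℝ} (hR : 0 < R) : Box n R ∈ K (n + 1) :=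
  ⟨nonempty_Box n hR, bounded_Box n R, isOpen_Box n R, convex_Box n R⟩

theorem integral_Box (n : ℕ) {R : ℝ} (hR : 0 ≤ R) (f : ℝ → ℝ) :
    ∫ x in Box n R, f (x 0) = (∫ t in Ioo (-1 : ℝ) 1, f t) * (2 * R) ^ n := by
  rw [← integral_indicator (isOpen_Box n R).measurableSet,
    ← integral_indicator (isOpen_Ioo.measurableSet)]
  set g : Fin (n + 1) → ℝ → ℝ := Fin.cons ((Ioo (-1 : ℝ) 1).indicator f)
    (fun _ => (Ioo (-R) R).indicator (fun _ => 1)) with hg
  have e1 : ∀ x : E (n + 1), (Box n R).indicator (fun x => f (x 0)) x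
      = ∏ i, g i ((MeasurableEquiv.toLp 2 (Fin (n + 1) → ℝ)).symm x i) := by
    intro x
    have e0 : ∀ i, (MeasurableEquiv.toLp 2 (Fin (n + 1) → ℝ)).symm x i = x i := fun i => rfl
    rw [Fin.prod_univ_succ]
    simp only [hg, Fin.cons_zero, Fin.cons_succ, e0]
    by_cases hx : x ∈ Box n R
    · rw [indicator_of_mem hx, indicator_of_mem (by
        have := abs_lt.1 hx.1; exact ⟨this.1, this.2⟩ : x 0 ∈ Ioo (-1 : ℝ) 1)]
      rw [Finset.prod_eq_one, mul_one]
      intro j _
      rw [indicator_of_mem]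
      have := abs_lt.1 (hx.2 j)
      exact ⟨this.1, this.2⟩
    · rw [indicator_of_notMem hx]
      by_cases h0 : |x 0| < 1
      · have h1 : ∃ j : Fin n, ¬ |x j.succ| < R := by
          by_contra hcon
          push Not at hcon
          exact hx ⟨h0, hcon⟩
        obtain ⟨j, hj⟩ := h1
        symm
        apply mul_eq_zero_of_right
        apply Finset.prod_eq_zero (Finset.mem_univ j)
        rw [indicator_of_notMem]
        intro hmem
        exact hj (abs_lt.2 ⟨hmem.1, hmem.2⟩)
      · symm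
        apply mul_eq_zero_of_left
        rw [indicator_of_notMem]
        intro hmem
        exact h0 (abs_lt.2 ⟨hmem.1, hmem.2⟩)
  simp_rw [e1]
  rw [(EuclideanSpace.volume_preserving_symm_measurableEquiv_toLp (Fin (n + 1))).integral_comp'
    (fun y : Fin (n + 1) → ℝ => ∏ i, g i (y i))]
  rw [integral_fintype_prod_volume_eq_prod, Fin.prod_univ_succ]
  simp only [hg, Fin.cons_zero, Fin.cons_succ]
  congr 1
  rw [Finset.prod_const, Finset.card_univ, Fintype.card_fin,
    integral_indicator isOpen_Ioo.measurableSet, setIntegral_const, smul_eq_mul, mul_one]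
  congr 1
  rw [measureReal_def, Real.volume_Ioo, ENNReal.toReal_ofReal (by linarith)]
  ring

theorem volume_Box (n : ℕ) {R : ℝ} (hR : 0 ≤ R) : (volume (Box n R)).toReal = 2 * (2 * R) ^ n := by
  have h := integral_Box n hR (fun _ => 1)
  rw [setIntegral_const, setIntegral_const, smul_eq_mul, smul_eq_mul, mul_one, mul_one,
    measureReal_def, measureReal_def, Real.volume_Ioo] at h
  rw [h]
  congr 1
  rw [ENNReal.toReal_ofReal (by norm_num)]
  norm_num

end PTor
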