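import Pool.Agent.Lib_helper97.PT.Test

/-! Module L: thin boxes are extremal for the upper bound. -/

open MeasureTheory Set Metric Filter Topology
open scoped RealInnerProductSpace NNReal ENNReal Gradient

namespace PTor

variable {n : ℕ} {p s : ℝ}

/-- on a box of half width one the maximum of the torsion function is at most `1/s` -/
theorem max_le_of_Box (h : p.HolderConjugate s) {R : ℝ} {w : E (n + 1) → ℝ} {M : ℝ}
    (hw : IsTor p (Box n R) w) (hM : ∃ x, w x = M)
    (hlip : LipschitzWith 1 (fun x => (s * (M - w x)) ^ (1 / s))) (hM0 : 0 < M) : s * M ≤ 1 := by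
  have hs := h.symm.lt
  obtain ⟨x, hx⟩ := hM
  have hxB : x ∈ Box n R := by
    by_contra hcon
    rw [hw.zero x hcon] at hx
    linarith
  -- a nearby point outside the box
  obtain ⟨y, hyB, hdist⟩ : ∃ y, y ∉ Box n R ∧ dist x y ≤ 1 := by
    have h0 := abs_lt.1 hxB.1
    rcases le_total 0 (x 0) with hx0 | hx0
    · refine ⟨x + EuclideanSpace.single 0 (1 - x 0), ?_, ?_⟩
      · intro hmem
        have := hmem.1
        simp at this
      · rw [dist_eq_norm, sub_add_cancel_left, norm_neg]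
        simp only [PiLp.norm_single, Real.norm_eq_abs]
        rw [abs_of_nonneg (by linarith)]
        linarith
    · refine ⟨x + EuclideanSpace.single 0 (-1 - x 0), ?_, ?_⟩
      · intro hmem
        have := hmem.1
        simp at this
      · rw [dist_eq_norm, sub_add_cancel_left, norm_neg]
        simp only [PiLp.norm_single, Real.norm_eq_abs]
        rw [abs_of_nonpos (by linarith)]
        linarith
  have h1 := hlip.dist_le_mul y x
  rw [NNReal.coe_one, one_mul, Real.dist_eq, hx, hw.zero y hyB, sub_self, mul_zero, sub_zero,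
    Real.zero_rpow (by positivity), sub_zero, dist_comm] at h1
  have h2 : (s * M) ^ (1 / s) ≤ 1 := (le_abs_self _).trans (h1.trans hdist)
  have h3 : (0 : ℝ) ≤ s * M := by positivity
  calc s * M = ((s * M) ^ (1 / s)) ^ s := by
        rw [← Real.rpow_mul h3, one_div_mul_cancel (by linarith), Real.rpow_one]
    _ ≤ 1 := Real.rpow_le_one (Real.rpow_nonneg h3 _) h2 (by linarith)

theorem lam1_le_lam_Box (hE : StmtExists) (hC : StmtConc) (hP : StmtPBound) (hB : StmtBarta)
    (hD : StmtDens) (h : p.HolderConjugate s) {R : ℝ} (hR : 0 < R) :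
    lam1 p ≤ lam p (Box n R) := by
  have hK := Box_mem_K n hR
  obtain ⟨w, hw⟩ := hE (n + 1) p s (Box n R) (Nat.succ_pos n) h hK
  have hcs := hw.lipZ.hasCompactSupport (bounded_Box n R)
  obtain ⟨x, hx⟩ := hw.lip.continuous.exists_forall_ge_of_hasCompactSupport hcs
  have hM0 : 0 < w x := by
    obtain ⟨y, hy⟩ := nonempty_Box n hR
    exact (hw.pos y hy).trans_le (hx y)
  have hconc := hC (n + 1) p s (Box n R) w (Nat.succ_pos n) h hK hw
  have hlip := hP (n + 1) p s (Box n R) w (w x) (Nat.succ_pos n) h hK hw hconc hx ⟨x, rfl⟩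
  have hb := hB (n + 1) p s (Box n R) w (w x) (Nat.succ_pos n) h hK hw hx hlip
  have hsM := max_le_of_Box h hw ⟨x, rfl⟩ hlip hM0
  have hs := h.symm.pos
  obtain ⟨-, -, -, -, hlam0⟩ := hD (n + 1) p s (Box n R) (Nat.succ_pos n) h hK
  have h1 : (s * w x) ^ (p - 1) ≤ 1 :=
    Real.rpow_le_one (by positivity) hsM (by linarith [h.lt])
  calc lam1 p ≤ lam p (Box n R) * (s * w x) ^ (p - 1) := hb
    _ ≤ lam p (Box n R) * 1 := mul_le_mul_of_nonneg_left h1 hlam0
    _ = _ := mul_one _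

/-- the lower bound of the torsional rigidity of a box -/
theorem T_Box (hE : StmtExists) (hD : StmtDens) (h : p.HolderConjugate s) (hn : 0 < n)
    {R ε : ℝ} (hε : 0 < ε) (hR0 : 0 < R) (hR : 0 ≤ R - 1 / ε) :
    (2 / (s + 1) * (2 * (R - 1 / ε)) ^ n) ^ p ≤
      T p (Box n R) * (Ien p s ε * (2 * R) ^ n) ∧ 0 ≤ T p (Box n R) := by
  have hK := Box_mem_K n hR0
  have hs := h.symm.lt
  obtain ⟨w, hw⟩ := hE (n + 1) p s (Box n R) (Nat.succ_pos n) h hK
  obtain ⟨-, h2, h3, -, -⟩ := hD (n + 1) p s (Box n R) (Nat.succ_pos n) h hK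
  have hT0 : 0 ≤ T p (Box n R) := by
    rw [(h3 w hw).2]
    exact Real.rpow_nonneg (integral_nonneg fun x => hw.nonneg x) _
  refine ⟨?_, hT0⟩
  calc (2 / (s + 1) * (2 * (R - 1 / ε)) ^ n) ^ p ≤ (∫ x, |tf n s R ε x|) ^ p :=
        Real.rpow_le_rpow (by positivity) (integral_tf hn hs hε hR) h.pos.le
    _ ≤ T p (Box n R) * ∫ x, ‖∇ (tf n s R ε) x‖ ^ p := h2 _ (tf_lipZ hs R hε)
    _ ≤ _ := mul_le_mul_of_nonneg_left (energy_tf h.lt hs hR0.le hε) hT0

/-- the value of the lower bound as a function of `ε` -/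
noncomputable def lowb (n : ℕ) (p s ε : ℝ) : ℝ :=
  lam1 p * ((2 / (s + 1) * (1 - ε) ^ n) ^ p / (Ien p s ε * 2 ^ (p - 1)))

theorem lowb_le (hE : StmtExists) (hC : StmtConc) (hP : StmtPBound) (hB : StmtBarta)
    (hD : StmtDens) (h : p.HolderConjugate s) (hn : 0 < n) {ε : ℝ} (hε : 0 < ε) (hε1 : ε < 1)
    (hl1 : 0 ≤ lam1 p) :
    lowb n p s ε ≤ F p (Box n (1 / ε ^ 2)) := by
  set R : ℝ := 1 / ε ^ 2 with hRdef
  have hR0 : 0 < R := by positivity
  have hRe : R - 1 / ε = R * (1 - ε) := by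
    rw [hRdef]; field_simp
  have hR : 0 ≤ R - 1 / ε := by
    rw [hRe]; exact mul_nonneg hR0.le (by linarith)
  obtain ⟨hT, hT0⟩ := T_Box hE hD h hn hε hR0 hR
  have hlam := lam1_le_lam_Box (n := n) hE hC hP hB hD h hR0
  have hI := Ien_pos h.lt h.symm.lt hε
  have hs := h.symm.pos
  set V : ℝ := (2 * R) ^ n with hV
  have hV0 : 0 < V := by positivity
  have e1 : (2 / (s + 1) * (2 * (R - 1 / ε)) ^ n) ^ p = (2 / (s + 1) * (1 - ε) ^ n) ^ p * V ^ p := by
    rw [hRe, ← Real.mul_rpow _ hV0.le]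
    · congr 1
      rw [hV, ← mul_assoc, mul_pow, mul_pow]
      ring
    · have : 0 ≤ 1 - ε := by linarith
      positivity
  have e2 : V ^ p = V ^ (p - 1) * V := by
    rw [← Real.rpow_add_one hV0.ne']; congr 1; ring
  rw [e1, e2] at hT
  have hT' : (2 / (s + 1) * (1 - ε) ^ n) ^ p / (Ien p s ε * 2 ^ (p - 1))
      ≤ T p (Box n R) / (2 * V) ^ (p - 1) := by
    have hVp : 0 < V ^ (p - 1) := Real.rpow_pos_of_pos hV0 _
    have h2p : (0 : ℝ) < 2 ^ (p - 1) := Real.rpow_pos_of_pos (by norm_num) _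
    rw [Real.mul_rpow (by norm_num) hV0.le, div_le_div_iff₀ (by positivity) (by positivity)]
    have : (2 / (s + 1) * (1 - ε) ^ n) ^ p * V ^ (p - 1) ≤ T p (Box n R) * Ien p s ε := by
      have h5 : ((2 / (s + 1) * (1 - ε) ^ n) ^ p * V ^ (p - 1)) * V
          ≤ (T p (Box n R) * Ien p s ε) * V := by
        calc _ = (2 / (s + 1) * (1 - ε) ^ n) ^ p * (V ^ (p - 1) * V) := by ring
          _ ≤ _ := hT
          _ = _ := by ring
      exact le_of_mul_le_mul_right h5 hV0
    calc _ = ((2 / (s + 1) * (1 - ε) ^ n) ^ p * V ^ (p - 1)) * 2 ^ (p - 1) := by ring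
      _ ≤ (T p (Box n R) * Ien p s ε) * 2 ^ (p - 1) := mul_le_mul_of_nonneg_right this h2p.le
      _ = _ := by ring
  unfold F lowb
  rw [volume_Box n hR0.le, ← hV, mul_div_assoc]
  exact mul_le_mul hlam hT' (by
    have : 0 ≤ 1 - ε := by linarith
    positivity) (hl1.trans hlam)

theorem lam1_nonneg (h : p.HolderConjugate s) : 0 ≤ lam1 p := by
  have hp := h.lt
  unfold lam1
  apply mul_nonneg (by linarith)
  apply Real.rpow_nonneg
  apply div_nonneg Real.pi_pos.le
  apply mul_nonneg h.pos.le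
  apply Real.sin_nonneg_of_nonneg_of_le_pi
  · have := Real.pi_pos; have := h.pos; positivity
  · rw [div_le_iff₀ h.pos]
    nlinarith [Real.pi_pos]

theorem tendsto_lowb (n : ℕ) (h : p.HolderConjugate s) :
    Tendsto (lowb n p s) (𝓝[>] 0) (𝓝 (lam1 p * (s + 1) ^ (1 - p))) := by
  have hs := h.symm.pos
  have hp := h.lt
  have h0 : lowb n p s 0 = lam1 p * (s + 1) ^ (1 - p) := by
    unfold lowb
    rw [Ien_zero h]
    congr 1
    have hb : (0 : ℝ) < 2 / (s + 1) := by positivity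
    rw [sub_zero, one_pow, mul_one]
    have e1 : (2 / (s + 1)) ^ p = (2 / (s + 1)) ^ (p - 1) * (2 / (s + 1)) := by
      rw [← Real.rpow_add_one hb.ne']; congr 1; ring
    rw [e1, Real.div_rpow (by norm_num) (by linarith)]
    have e2 : (s + 1) ^ (1 - p) = ((s + 1) ^ (p - 1))⁻¹ := by
      rw [← Real.rpow_neg (by linarith)]; congr 1; ring
    rw [e2]
    have h2p : (0 : ℝ) < 2 ^ (p - 1) := Real.rpow_pos_of_pos (by norm_num) _
    have h3p : (0 : ℝ) < (s + 1) ^ (p - 1) := Real.rpow_pos_of_pos (by linarith) _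
    field_simp
  rw [← h0]
  have hcont : ContinuousAt (lowb n p s) 0 := by
    unfold lowb
    apply ContinuousAt.mul continuousAt_const
    apply ContinuousAt.div
    · apply ContinuousAt.rpow_const (by fun_prop)
      exact Or.inr (by linarith)
    · exact ((continuous_Ien h.lt h.symm.lt).continuousAt).mul continuousAt_const
    · have h2p : (0 : ℝ) < 2 ^ (p - 1) := Real.rpow_pos_of_pos (by norm_num) _
      rw [Ien_zero h]
      positivity
  exact hcont.tendsto.mono_left nhdsWithin_le_nhds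

/-- MODULE L -/
theorem stmtSharpSup_of (hE : StmtExists) (hC : StmtConc) (hP : StmtPBound) (hB : StmtBarta)
    (hD : StmtDens) : StmtSharpSup := by
  intro d p s hd h ε₀ hε₀
  obtain ⟨n, rfl⟩ : ∃ n, d = n + 1 := ⟨d - 1, by omega⟩
  have hn : 0 < n := by omega
  have ht := tendsto_lowb n h
  have h1 : ∀ᶠ ε in 𝓝[>] (0 : ℝ), lam1 p * (s + 1) ^ (1 - p) - ε₀ < lowb n p s ε :=
    ht.eventually (lt_mem_nhds (by linarith))
  have h2 : ∀ᶠ ε in 𝓝[>] (0 : ℝ), ε < 1 :=
    nhdsWithin_le_nhds (gt_mem_nhds one_pos)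
  have h3 : ∀ᶠ ε in 𝓝[>] (0 : ℝ), 0 < ε := eventually_mem_nhdsWithin
  obtain ⟨ε, ha, hb, hc⟩ := (h1.and (h2.and h3)).exists
  exact ⟨Box n (1 / ε ^ 2), Box_mem_K n (by positivity),
    ha.trans_le (lowb_le hE hC hP hB hD h hn hc hb (lam1_nonneg h))⟩

end PTor
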