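import Pool.Agent.Lib_helper97.PT.Box

/-! Module L, part 2: the test function on boxes. -/

open MeasureTheory Set Metric Filter Topology
open scoped RealInnerProductSpace NNReal ENNReal Gradient

namespace PTor

section oneD

variable {s : ℝ}

/-- the one dimensional torsion function -/
noncomputable def w1 (s t : ℝ) : ℝ := (1 - (min |t| 1) ^ s) / s

theorem rpow_lip (hs : 1 < s) {a b : ℝ} (ha : a ∈ Icc (0 : ℝ) 1) (hb : b ∈ Icc (0 : ℝ) 1) :
    |b ^ s - a ^ s| ≤ s * |b - a| := by
  have h := (convex_Icc (0 : ℝ) 1).norm_image_sub_le_of_norm_hasDerivWithin_le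
    (f := fun t : ℝ => t ^ s) (f' := fun t : ℝ => s * t ^ (s - 1)) (C := s)
    (fun t _ => (Real.hasDerivAt_rpow_const (Or.inr hs.le)).hasDerivWithinAt)
    (fun t ht => by
      rw [Real.norm_eq_abs, abs_mul, abs_of_pos (by linarith : 0 < s),
        abs_of_nonneg (Real.rpow_nonneg ht.1 _)]
      have := Real.rpow_le_one ht.1 ht.2 (by linarith : 0 ≤ s - 1)
      nlinarith) ha hb
  simpa [Real.norm_eq_abs] using h

theorem w1_lip (hs : 1 < s) : LipschitzWith 1 (w1 s) := by
  refine LipschitzWith.of_dist_le_mul fun a b => ?_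
  rw [NNReal.coe_one, one_mul, Real.dist_eq, Real.dist_eq]
  have hm : ∀ t : ℝ, min |t| 1 ∈ Icc (0 : ℝ) 1 := fun t =>
    ⟨le_min (abs_nonneg _) zero_le_one, min_le_right _ _⟩
  have h1 := rpow_lip hs (hm a) (hm b)
  have h2 : |min |b| 1 - min |a| 1| ≤ |a - b| := by
    refine (abs_min_sub_min_le_max _ _ _ _).trans ?_
    rw [sub_self, abs_zero, max_eq_left (abs_nonneg _), abs_sub_comm a b]
    exact abs_abs_sub_abs_le_abs_sub b a
  have e : w1 s a - w1 s b = ((min |b| 1) ^ s - (min |a| 1) ^ s) / s := by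
    unfold w1; ring
  rw [e, abs_div, abs_of_pos (by linarith : 0 < s), div_le_iff₀ (by linarith)]
  nlinarith

theorem w1_nonneg (hs : 1 < s) (t : ℝ) : 0 ≤ w1 s t := by
  unfold w1
  have := Real.rpow_le_one (le_min (abs_nonneg t) zero_le_one) (min_le_right |t| 1)
    (by linarith : 0 ≤ s)
  apply div_nonneg _ (by linarith)
  linarith

theorem w1_le_one (hs : 1 < s) (t : ℝ) : w1 s t ≤ 1 := by
  unfold w1
  have := Real.rpow_nonneg (le_min (abs_nonneg t) zero_le_one) s
  rw [div_le_one (by linarith)]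
  linarith

theorem w1_zero {t : ℝ} (ht : 1 ≤ |t|) : w1 s t = 0 := by
  unfold w1
  rw [min_eq_right ht, Real.one_rpow, sub_self, zero_div]

theorem w1_eq {t : ℝ} (ht : |t| ≤ 1) : w1 s t = (1 - |t| ^ s) / s := by
  unfold w1
  rw [min_eq_left ht]

theorem abs_mul_self_rpow (hs : 1 < s) (t : ℝ) : |(|t| ^ (s - 2) * t)| = |t| ^ (s - 1) := by
  rw [abs_mul, abs_of_nonneg (Real.rpow_nonneg (abs_nonneg _) _)]
  rcases eq_or_ne t 0 with h | h
  · subst h
    rw [abs_zero, mul_zero, Real.zero_rpow (by linarith)]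
  · have := abs_pos.2 h
    rw [show s - 1 = (s - 2) + 1 by ring, Real.rpow_add this, Real.rpow_one]

theorem hasDerivAt_F (hs : 1 < s) (t : ℝ) :
    HasDerivAt (fun t : ℝ => t * |t| ^ s / (s + 1)) (|t| ^ s) t := by
  have h1 := hasDerivAt_abs_rpow t hs
  have h2 := ((hasDerivAt_id t).mul h1).div_const (s + 1)
  refine h2.congr_deriv ?_
  have e : |t| ^ (s - 2) * t * t = |t| ^ s := by
    rcases eq_or_ne t 0 with h | h
    · subst h
      rw [mul_zero, abs_zero, Real.zero_rpow (by linarith)]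
    · have h3 := abs_pos.2 h
      rw [mul_assoc, ← abs_mul_abs_self t, ← mul_assoc, ← Real.rpow_add_one h3.ne',
        ← Real.rpow_add_one h3.ne']
      congr 1; ring
  simp only [id]
  rw [div_eq_iff (by linarith : s + 1 ≠ 0)]
  linear_combination s * e

theorem integral_abs_rpow (hs : 1 < s) : ∫ t in (-1 : ℝ)..1, |t| ^ s = 2 / (s + 1) := by
  have hc : Continuous fun t : ℝ => |t| ^ s :=
    continuous_abs.rpow_const fun _ => Or.inr (by linarith)
  rw [intervalIntegral.integral_eq_sub_of_hasDerivAt (fun t _ => hasDerivAt_F hs t)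
    (hc.intervalIntegrable _ _)]
  norm_num
  ring

theorem integral_w1 (hs : 1 < s) : ∫ t in Ioo (-1 : ℝ) 1, w1 s t = 2 / (s + 1) := by
  rw [← integral_Ioc_eq_integral_Ioo, ← intervalIntegral.integral_of_le (by norm_num)]
  have hc : Continuous fun t : ℝ => |t| ^ s :=
    continuous_abs.rpow_const fun _ => Or.inr (by linarith)
  have e : ∫ t in (-1 : ℝ)..1, w1 s t = ∫ t in (-1 : ℝ)..1, (1 - |t| ^ s) / s := by
    apply intervalIntegral.integral_congr
    intro t ht
    rw [uIcc_of_le (by norm_num)] at ht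
    exact w1_eq (abs_le.2 ⟨ht.1, ht.2⟩)
  rw [e, intervalIntegral.integral_div, intervalIntegral.integral_sub
    intervalIntegrable_const (hc.intervalIntegrable _ _), integral_abs_rpow hs,
    intervalIntegral.integral_const]
  have : s + 1 ≠ 0 := by linarith
  have : s ≠ 0 := by linarith
  rw [smul_eq_mul]
  field_simp
  ring

/-- the energy integral -/
noncomputable def Ien (p s ε : ℝ) : ℝ := ∫ t in (-1 : ℝ)..1, (|t| ^ (s - 1) + |ε|) ^ p

theorem continuous_Ien {p : ℝ} (hp : 1 < p) (hs : 1 < s) : Continuous (Ien p s) := by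
  unfold Ien
  apply intervalIntegral.continuous_parametric_intervalIntegral_of_continuous'
  unfold Function.uncurry
  apply Continuous.rpow_const
  · apply Continuous.add
    · exact (continuous_abs.comp continuous_snd).rpow_const fun _ => Or.inr (by linarith)
    · exact continuous_abs.comp continuous_fst
  · exact fun _ => Or.inr (by linarith)

theorem Ien_zero {p : ℝ} (h : p.HolderConjugate s) : Ien p s 0 = 2 / (s + 1) := by
  have hs := h.symm.lt
  rw [← integral_abs_rpow hs]
  unfold Ien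
  apply intervalIntegral.integral_congr
  intro t _
  simp only [abs_zero, add_zero]
  rw [← Real.rpow_mul (abs_nonneg _)]
  congr 1
  have := h.sub_one_mul_conj
  have h2 := h.symm.sub_one_mul_conj
  linarith

theorem Ien_pos {p ε : ℝ} (hp : 1 < p) (hs : 1 < s) (hε : 0 < ε) : 0 < Ien p s ε := by
  unfold Ien
  apply intervalIntegral.intervalIntegral_pos_of_pos_on
  · apply Continuous.intervalIntegrable
    apply Continuous.rpow_const
    · exact (continuous_abs.rpow_const fun _ => Or.inr (by linarith)).add continuous_const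
    · exact fun _ => Or.inr (by linarith)
  · intro t _
    have := Real.rpow_nonneg (abs_nonneg t) (s - 1)
    rw [abs_of_pos hε]
    positivity
  · norm_num

end oneD

section cutoff

variable {n : ℕ}

/-- the complement of the infinite cylinder -/
def Sc (n : ℕ) (R : ℝ) : Set (E (n + 1)) := {y | ∃ j : Fin n, R ≤ |y j.succ|}

theorem Sc_nonempty (hn : 0 < n) (R : ℝ) : (Sc n R).Nonempty := by
  refine ⟨EuclideanSpace.single (Fin.succ ⟨0, hn⟩) R, ⟨0, hn⟩, ?_⟩
  simp [le_abs_self]

/-- the cutoff -/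
noncomputable def eta (n : ℕ) (R ε : ℝ) (x : E (n + 1)) : ℝ := min 1 (ε * infDist x (Sc n R))

theorem eta_nonneg {R ε : ℝ} (hε : 0 < ε) (x : E (n + 1)) : 0 ≤ eta n R ε x :=
  le_min zero_le_one (mul_nonneg hε.le infDist_nonneg)

theorem eta_le_one {R ε : ℝ} (x : E (n + 1)) : eta n R ε x ≤ 1 := min_le_left _ _

theorem eta_lip (R : ℝ) {ε : ℝ} (hε : 0 < ε) : LipschitzWith ⟨ε, hε.le⟩ (eta n R ε) := by
  refine LipschitzWith.of_dist_le_mul fun a b => ?_
  have h1 := (lipschitz_infDist_pt (Sc n R)).dist_le_mul a b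
  rw [NNReal.coe_one, one_mul, Real.dist_eq] at h1
  rw [Real.dist_eq]
  show |min 1 (ε * infDist a (Sc n R)) - min 1 (ε * infDist b (Sc n R))| ≤ ε * dist a b
  refine (abs_min_sub_min_le_max _ _ _ _).trans ?_
  rw [sub_self, abs_zero, max_eq_right (abs_nonneg _), ← mul_sub, abs_mul, abs_of_pos hε]
  exact mul_le_mul_of_nonneg_left h1 hε.le

theorem eta_zero {R ε : ℝ} {x : E (n + 1)} (hx : x ∈ Sc n R) : eta n R ε x = 0 := by
  unfold eta
  rw [infDist_zero_of_mem hx, mul_zero]
  norm_num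

theorem eta_one (hn : 0 < n) {R ε : ℝ} (hε : 0 < ε) {x : E (n + 1)}
    (hx : ∀ j : Fin n, |x j.succ| ≤ R - 1 / ε) : eta n R ε x = 1 := by
  unfold eta
  apply min_eq_left
  have h1 : 1 / ε ≤ infDist x (Sc n R) := by
    rw [le_infDist (Sc_nonempty hn R)]
    rintro y ⟨j, hj⟩
    have h2 : |x j.succ - y j.succ| ≤ dist x y := by
      rw [dist_eq_norm]
      exact (PiLp.norm_apply_le (x - y) j.succ)
    have h3 := hx j
    have h4 : |y j.succ| - |x j.succ| ≤ |x j.succ - y j.succ| := by
      rw [abs_sub_comm]; exact abs_sub_abs_le_abs_sub _ _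
    linarith
  rw [div_le_iff₀ hε] at h1
  linarith

end cutoff

section test

variable {n : ℕ} {p s : ℝ}

theorem lip_coord (n : ℕ) : LipschitzWith 1 (fun x : E (n + 1) => x 0) := by
  refine LipschitzWith.of_dist_le_mul fun a b => ?_
  rw [NNReal.coe_one, one_mul, Real.dist_eq, dist_eq_norm]
  exact PiLp.norm_apply_le (a - b) 0

/-- the test function -/
noncomputable def tf (n : ℕ) (s R ε : ℝ) (x : E (n + 1)) : ℝ := w1 s (x 0) * eta n R ε x

theorem tf_nonneg {R ε : ℝ} (hs : 1 < s) (hε : 0 < ε) (x : E (n + 1)) : 0 ≤ tf n s R ε x :=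
  mul_nonneg (w1_nonneg hs _) (eta_nonneg hε x)

theorem tf_lipZ (hs : 1 < s) (R : ℝ) {ε : ℝ} (hε : 0 < ε) : LipZ (Box n R) (tf n s R ε) := by
  constructor
  · refine Lip.mul_of_bdd (A := 1) (B := 1) ⟨_, (w1_lip hs).comp (lip_coord n)⟩
      ⟨_, eta_lip R hε⟩ ?_ ?_
    · intro x
      show |w1 s (x 0)| ≤ 1
      rw [abs_of_nonneg (w1_nonneg hs _)]
      exact w1_le_one hs _
    · intro x
      rw [abs_of_nonneg (eta_nonneg hε x)]
      exact eta_le_one x
  · intro x hx
    unfold tf
    by_cases h0 : |x 0| < 1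
    · have h1 : ∃ j : Fin n, ¬ |x j.succ| < R := by
        by_contra hcon
        push Not at hcon
        exact hx ⟨h0, hcon⟩
      obtain ⟨j, hj⟩ := h1
      rw [eta_zero ⟨j, not_lt.1 hj⟩, mul_zero]
    · rw [w1_zero (not_lt.1 h0), zero_mul]

theorem norm_grad_W (hs : 1 < s) {x : E (n + 1)} (hx : |x 0| < 1) :
    DifferentiableAt ℝ (fun y : E (n + 1) => w1 s (y 0)) x ∧
      ‖∇ (fun y : E (n + 1) => w1 s (y 0)) x‖ ≤ |x 0| ^ (s - 1) := by
  have hd : DifferentiableAt ℝ (fun y : E (n + 1) => y 0) x := by fun_prop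
  have h1 : HasDerivAt (fun t : ℝ => (1 - |t| ^ s) / s) (-(|x 0| ^ (s - 2) * x 0)) (x 0) := by
    refine (((hasDerivAt_abs_rpow (x 0) hs).const_sub 1).div_const s).congr_deriv ?_
    have : s ≠ 0 := by linarith
    field_simp
  have hcongr : (fun y : E (n + 1) => w1 s (y 0)) =ᶠ[𝓝 x]
      fun y : E (n + 1) => (1 - |y 0| ^ s) / s := by
    have ho : IsOpen {y : E (n + 1) | |y 0| < 1} := isOpen_lt (by fun_prop) continuous_const
    filter_upwards [ho.mem_nhds hx] with y hy
    exact w1_eq (le_of_lt hy)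
  constructor
  · refine DifferentiableAt.congr_of_eventuallyEq ?_ hcongr
    exact (h1.differentiableAt).comp x hd
  · rw [grad_congr hcongr, grad_comp (u := fun y : E (n + 1) => y 0) h1 hd, norm_smul,
      Real.norm_eq_abs, abs_neg, abs_mul_self_rpow hs]
    have := norm_grad_le (lip_coord n) x
    rw [NNReal.coe_one] at this
    have h2 := Real.rpow_nonneg (abs_nonneg (x 0)) (s - 1)
    nlinarith

theorem norm_grad_tf (hp : 1 < p) (hs : 1 < s) {R ε : ℝ} (hε : 0 < ε) :
    ∀ᵐ x : E (n + 1), ‖∇ (tf n s R ε) x‖ ^ p ≤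
      (Box n R).indicator (fun x => (|x 0| ^ (s - 1) + |ε|) ^ p) x := by
  have hZ := tf_lipZ (n := n) hs R hε
  filter_upwards [ae_grad_zero_of_zero hZ.1, ae_diff (⟨_, eta_lip (n := n) R hε⟩ : Lip (eta n R ε))]
    with x h1 h2
  by_cases hx : x ∈ Box n R
  · rw [indicator_of_mem hx]
    obtain ⟨h3, h4⟩ := norm_grad_W (n := n) hs hx.1
    have e : ∇ (tf n s R ε) x = w1 s (x 0) • ∇ (eta n R ε) x
        + eta n R ε x • ∇ (fun y : E (n + 1) => w1 s (y 0)) x :=
      grad_mul h3 h2
    have h5 := norm_grad_le (eta_lip (n := n) R hε) x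
    have h5' : ‖∇ (eta n R ε) x‖ ≤ ε := h5
    have h6 : ‖∇ (tf n s R ε) x‖ ≤ |x 0| ^ (s - 1) + |ε| := by
      rw [e]
      refine (norm_add_le _ _).trans ?_
      rw [norm_smul, norm_smul, Real.norm_of_nonneg (w1_nonneg hs _),
        Real.norm_of_nonneg (eta_nonneg hε x), abs_of_pos hε]
      have a1 := w1_le_one hs (x 0)
      have a2 := eta_le_one (R := R) (ε := ε) x
      have a3 := w1_nonneg hs (x 0)
      have a4 := eta_nonneg (R := R) hε x
      have b1 : w1 s (x 0) * ‖∇ (eta n R ε) x‖ ≤ 1 * ε :=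
        mul_le_mul a1 h5' (norm_nonneg _) zero_le_one
      have b2 : eta n R ε x * ‖∇ (fun y : E (n + 1) => w1 s (y 0)) x‖
          ≤ 1 * |x 0| ^ (s - 1) := mul_le_mul a2 h4 (norm_nonneg _) zero_le_one
      linarith
    exact Real.rpow_le_rpow (norm_nonneg _) h6 (by linarith)
  · rw [indicator_of_notMem hx, h1 (hZ.2 x hx), norm_zero, Real.zero_rpow (by linarith)]

/-- upper bound of the energy -/
theorem energy_tf (hp : 1 < p) (hs : 1 < s) {R ε : ℝ} (hR : 0 ≤ R) (hε : 0 < ε) :
    ∫ x : E (n + 1), ‖∇ (tf n s R ε) x‖ ^ p ≤ Ien p s ε * (2 * R) ^ n := by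
  have h1 := integral_Box n hR (fun t => (|t| ^ (s - 1) + |ε|) ^ p)
  rw [← integral_Ioc_eq_integral_Ioo, ← intervalIntegral.integral_of_le (by norm_num)] at h1
  unfold Ien
  rw [← h1, ← integral_indicator (isOpen_Box n R).measurableSet]
  apply integral_mono_of_nonneg
  · exact Eventually.of_forall fun x => Real.rpow_nonneg (norm_nonneg _) _
  · rw [integrable_indicator_iff (isOpen_Box n R).measurableSet]
    have hc : Continuous fun x : E (n + 1) => (|x 0| ^ (s - 1) + |ε|) ^ p := by
      apply Continuous.rpow_const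
      · apply Continuous.add _ continuous_const
        apply Continuous.rpow_const (by fun_prop)
        exact fun _ => Or.inr (by linarith)
      · exact fun _ => Or.inr (by linarith)
    have hcp : IsCompact (closure (Box n R)) := (bounded_Box n R).isCompact_closure
    exact (hc.continuousOn.integrableOn_compact hcp).mono_set subset_closure
  · exact norm_grad_tf hp hs hε

/-- lower bound of the integral -/
theorem integral_tf (hn : 0 < n) (hs : 1 < s) {R ε : ℝ} (hε : 0 < ε) (hR : 0 ≤ R - 1 / ε) :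
    2 / (s + 1) * (2 * (R - 1 / ε)) ^ n ≤ ∫ x : E (n + 1), |tf n s R ε x| := by
  have h1 := integral_Box n hR (fun t => w1 s t)
  rw [integral_w1 hs] at h1
  rw [← h1]
  have hZ := tf_lipZ (n := n) hs R hε
  have hint : Integrable (fun x : E (n + 1) => |tf n s R ε x|) := by
    have := (hZ.1).abs
    refine Lip.integrable this ?_
    exact (hZ.hasCompactSupport (bounded_Box n R)).comp_left abs_zero
  calc ∫ x in Box n (R - 1 / ε), w1 s (x 0) = ∫ x in Box n (R - 1 / ε), |tf n s R ε x| := by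
        apply setIntegral_congr_fun (isOpen_Box n _).measurableSet
        intro x hx
        show w1 s (x 0) = |tf n s R ε x|
        rw [abs_of_nonneg (tf_nonneg hs hε x)]
        unfold tf
        rw [eta_one hn hε (fun j => (hx.2 j).le), mul_one]
    _ ≤ ∫ x : E (n + 1), |tf n s R ε x| :=
        setIntegral_le_integral hint (Eventually.of_forall fun x => abs_nonneg _)

end test

end PTor
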